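import Pool.Agent.H110R3.Urn.Stmts

/-!
# Task E2a of the Polya urn project (MP_cd93fa_pr)
-/

namespace Pool.Agent.H482.Urn

open Pool.Agent.H110R3.Urn

lemma pp_nonneg' {α a b : ℝ} (ha : 0 ≤ a) (hb : 0 ≤ b) : 0 ≤ pp α a b := by
  unfold pp
  have h1 := Real.rpow_nonneg ha α
  have h2 := Real.rpow_nonneg hb α
  positivity

lemma pp_le_exp {α a b : ℝ} (ha : 0 < a) (hb : 0 < b) :
    pp α a b ≤ Real.exp (α * Real.log a - α * Real.log b) := by
  unfold pp
  rw [Real.exp_sub, mul_comm α, mul_comm α, ← Real.rpow_def_of_pos ha, ← Real.rpow_def_of_pos hb]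
  have h1 := Real.rpow_pos_of_pos ha α
  have h2 := Real.rpow_pos_of_pos hb α
  apply div_le_div_of_nonneg_left h1.le h2
  linarith

lemma pp_add {α a b : ℝ} (ha : 0 < a) (hb : 0 < b) : pp α a b + pp α b a = 1 := by
  unfold pp
  have h1 := Real.rpow_pos_of_pos ha α
  have h2 := Real.rpow_pos_of_pos hb α
  rw [add_comm (b ^ α) (a ^ α), ← add_div, div_self (by positivity)]

lemma pp_zero {α a : ℝ} (hα : 0 < α) (ha : 0 < a) : pp α a 0 = 1 := by
  unfold pp
  have h1 := Real.rpow_pos_of_pos ha α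
  rw [Real.zero_rpow hα.ne', add_zero, div_self h1.ne']

lemma sum_antisymm {m : ℕ} (S : Finset (Fin m)) (e : Fin m → Fin m → ℝ)
    (h : ∀ i ∈ S, ∀ j ∈ S, e i j + e j i = 0) : ∑ i ∈ S, ∑ j ∈ S, e i j = 0 := by
  have h1 : ∑ i ∈ S, ∑ j ∈ S, e i j = ∑ i ∈ S, ∑ j ∈ S, e j i := Finset.sum_comm
  have h2 : ∑ i ∈ S, ∑ j ∈ S, (e i j + e j i) = 0 :=
    Finset.sum_eq_zero fun i hi => Finset.sum_eq_zero fun j hj => h i hi j hj
  simp only [Finset.sum_add_distrib] at h2
  linarith

lemma log_upper {a b : ℝ} (ha : 0 < a) (hb : 0 < b) :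
    a - b ≤ a * (Real.log a - Real.log b) := by
  have h := Real.log_le_sub_one_of_pos (div_pos hb ha)
  rw [Real.log_div hb.ne' ha.ne'] at h
  have h2 : a * (Real.log b - Real.log a) ≤ a * (b / a - 1) := mul_le_mul_of_nonneg_left h ha.le
  have h3 : a * (b / a - 1) = b - a := by field_simp
  rw [h3] at h2
  linarith

/-- a double sum of terms of size at most `t` -/
lemma abs_dsum_le {m : ℕ} (S T : Finset (Fin m)) (e : Fin m → Fin m → ℝ) (t : ℝ) (ht : 0 ≤ t)
    (h : ∀ i ∈ S, ∀ j ∈ T, |e i j| ≤ t) : |∑ i ∈ S, ∑ j ∈ T, e i j| ≤ (m : ℝ) ^ 2 * t := by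
  have hS : (S.card : ℝ) ≤ m := by
    have := Finset.card_le_univ S
    simp at this
    exact_mod_cast this
  have hT : (T.card : ℝ) ≤ m := by
    have := Finset.card_le_univ T
    simp at this
    exact_mod_cast this
  calc |∑ i ∈ S, ∑ j ∈ T, e i j| ≤ ∑ i ∈ S, |∑ j ∈ T, e i j| := Finset.abs_sum_le_sum_abs _ _
    _ ≤ ∑ i ∈ S, ∑ j ∈ T, |e i j| :=
        Finset.sum_le_sum fun i _ => Finset.abs_sum_le_sum_abs _ _
    _ ≤ ∑ i ∈ S, ∑ j ∈ T, t :=
        Finset.sum_le_sum fun i hi => Finset.sum_le_sum fun j hj => h i hi j hj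
    _ = (S.card : ℝ) * (T.card * t) := by simp
    _ ≤ (m : ℝ) * (m * t) := by
        apply mul_le_mul hS _ (by positivity) (by positivity)
        exact mul_le_mul_of_nonneg_right hT ht
    _ = (m : ℝ) ^ 2 * t := by ring

lemma split_sum {m : ℕ} (D D' : Finset (Fin m)) (h : Disjoint D D') (f : Fin m → ℝ) :
    ∑ j, f j = ∑ j ∈ D, f j + ∑ j ∈ D', f j + ∑ j ∈ (D ∪ D')ᶜ, f j := by
  rw [← Finset.sum_union h, Finset.sum_add_sum_compl]

/-- the core: given the integer approximations, the contradiction -/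
lemma core (N K κ α t XD XD' s r r' : ℝ) (m a b : ℕ) (n n' : ℤ) (hN : 1 ≤ N)
    (hm : 1 ≤ m) (ha : 1 ≤ a) (hb : 1 ≤ b) (ham : a ≤ m) (hbm : b ≤ m)
    (hκ : κ = 1 / (8 * N * m ^ 3)) (hK : K = 8 * m ^ 3) (hα : 0 < α)
    (hα1 : 8 * m ^ 3 ≤ κ * α) (hα2 : 4 / κ ^ 2 < α)
    (ht : t = Real.exp (-(κ * α)))
    (h1 : N * XD = n - s + r) (h2 : N * XD' = n' + s + r')
    (hs0 : 0 ≤ s) (hs : s ≤ m ^ 2 * Real.exp (-K)) (hr : |r| ≤ m ^ 2 * t)
    (hr' : |r'| ≤ m ^ 2 * t)
    (hup : b * XD - a * XD' ≤ a * b * (m * κ))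
    (hlo : a * b * (K / (8 * N * α)) ≤ b * XD - a * XD') : False := by
  have hm' : (1 : ℝ) ≤ m := by exact_mod_cast hm
  have ha' : (1 : ℝ) ≤ a := by exact_mod_cast ha
  have hb' : (1 : ℝ) ≤ b := by exact_mod_cast hb
  have ham' : (a : ℝ) ≤ m := by exact_mod_cast ham
  have hbm' : (b : ℝ) ≤ m := by exact_mod_cast hbm
  have hκ0 : 0 < κ := by rw [hκ]; positivity
  have hK0 : 0 < K := by rw [hK]; positivity
  have hκα : 0 < κ * α := by positivity
  have ht0 : 0 < t := by rw [ht]; exact Real.exp_pos _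
  have ht1 : t ≤ 1 / (8 * m ^ 3) := by
    rw [ht, Real.exp_neg, ← one_div]
    apply one_div_le_one_div_of_le (by positivity)
    have := Real.add_one_le_exp (κ * α)
    linarith
  have ht2 : t ≤ 2 / (κ * α) ^ 2 := by
    rw [ht, Real.exp_neg]
    have := Real.quadratic_le_exp_of_nonneg hκα.le
    have h3 : (κ * α) ^ 2 / 2 ≤ Real.exp (κ * α) := by nlinarith
    calc (Real.exp (κ * α))⁻¹ ≤ ((κ * α) ^ 2 / 2)⁻¹ := by
          apply inv_anti₀ (by positivity) h3
      _ = 2 / (κ * α) ^ 2 := by rw [inv_div]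
  have hKexp : Real.exp (-K) ≤ 1 / (8 * m ^ 3) := by
    rw [Real.exp_neg, ← one_div]
    apply one_div_le_one_div_of_le (by positivity)
    have := Real.add_one_le_exp K
    linarith
  have key : N * (b * XD - a * XD') = ((b * n - a * n' : ℤ) : ℝ) - (a + b) * s + b * r - a * r' := by
    push_cast
    have : N * (b * XD - a * XD') = b * (N * XD) - a * (N * XD') := by ring
    rw [this, h1, h2]; ring
  have hbr : |(b : ℝ) * r| ≤ m * (m ^ 2 * t) := by
    rw [abs_mul, abs_of_nonneg (by positivity : (0:ℝ) ≤ b)]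
    exact mul_le_mul hbm' hr (abs_nonneg _) (by positivity)
  have har : |(a : ℝ) * r'| ≤ m * (m ^ 2 * t) := by
    rw [abs_mul, abs_of_nonneg (by positivity : (0:ℝ) ≤ a)]
    exact mul_le_mul ham' hr' (abs_nonneg _) (by positivity)
  have hmt : (m : ℝ) * (m ^ 2 * t) ≤ 1 / 8 := by
    have : (m : ℝ) * (m ^ 2 * t) = m ^ 3 * t := by ring
    rw [this]
    calc (m : ℝ) ^ 3 * t ≤ m ^ 3 * (1 / (8 * m ^ 3)) :=
          mul_le_mul_of_nonneg_left ht1 (by positivity)
      _ = 1 / 8 := by field_simp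
  have hs1 : ((a : ℝ) + b) * s ≤ 1 / 4 := by
    calc ((a : ℝ) + b) * s ≤ (2 * m) * (m ^ 2 * (1 / (8 * m ^ 3))) := by
          apply mul_le_mul (by linarith) _ hs0 (by positivity)
          exact hs.trans (mul_le_mul_of_nonneg_left hKexp (by positivity))
      _ = 1 / 4 := by field_simp; norm_num
  have hs2 : 0 ≤ ((a : ℝ) + b) * s := by positivity
  have hNup : N * (b * XD - a * XD') ≤ 1 / 8 := by
    calc N * (b * XD - a * XD') ≤ N * (a * b * (m * κ)) :=
          mul_le_mul_of_nonneg_left hup (by linarith)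
      _ ≤ N * (m * m * (m * κ)) := by
          apply mul_le_mul_of_nonneg_left _ (by linarith)
          apply mul_le_mul_of_nonneg_right _ (by positivity)
          exact mul_le_mul ham' hbm' (by positivity) (by positivity)
      _ = 1 / 8 := by rw [hκ]; field_simp
  have hNlo : K / (8 * α) ≤ N * (b * XD - a * XD') := by
    calc K / (8 * α) = N * (1 * 1 * (K / (8 * N * α))) := by field_simp
      _ ≤ N * (a * b * (K / (8 * N * α))) := by
          apply mul_le_mul_of_nonneg_left _ (by linarith)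
          apply mul_le_mul_of_nonneg_right _ (by positivity)
          exact mul_le_mul ha' hb' (by positivity) (by positivity)
      _ ≤ N * (b * XD - a * XD') := mul_le_mul_of_nonneg_left hlo (by linarith)
  have hpos : 0 < K / (8 * α) := by positivity
  have hbr' := abs_le.1 hbr
  have har' := abs_le.1 har
  have hI : (b * n - a * n' : ℤ) = 0 := by
    have hlt : ((b * n - a * n' : ℤ) : ℝ) < 1 := by linarith [hbr'.1, har'.2]
    have hgt : (-1 : ℝ) < ((b * n - a * n' : ℤ) : ℝ) := by linarith [hbr'.2, har'.1]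
    have h3 : (b * n - a * n' : ℤ) < 1 := by exact_mod_cast hlt
    have h4 : (-1 : ℤ) < (b * n - a * n' : ℤ) := by exact_mod_cast hgt
    omega
  rw [hI] at key
  have hfin : K / (8 * α) ≤ 2 * (m * (m ^ 2 * t)) := by
    have : N * (b * XD - a * XD') ≤ 2 * (m * (m ^ 2 * t)) := by
      rw [key]; push_cast; linarith [hbr'.2, har'.1]
    linarith
  have h5 : 2 * ((m : ℝ) * (m ^ 2 * t)) ≤ 2 * (m ^ 3 * (2 / (κ * α) ^ 2)) := by
    have : (m : ℝ) * (m ^ 2 * t) = m ^ 3 * t := by ring
    rw [this]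
    have := mul_le_mul_of_nonneg_left ht2 (by positivity : (0:ℝ) ≤ m ^ 3)
    linarith
  have h6 : K / (8 * α) ≤ 2 * (m ^ 3 * (2 / (κ * α) ^ 2)) := hfin.trans h5
  rw [hK] at h6
  have h7 : 8 * (m:ℝ) ^ 3 / (8 * α) = m ^ 3 / α := by field_simp
  rw [h7] at h6
  have h8 : 2 * ((m:ℝ) ^ 3 * (2 / (κ * α) ^ 2)) = (m ^ 3 / α) * ((4 / κ ^ 2) / α) := by
    field_simp; ring
  rw [h8] at h6
  have h9 : (4 / κ ^ 2) / α < 1 := by rw [div_lt_one hα]; exact hα2
  have h10 : 0 < (m:ℝ) ^ 3 / α := by positivity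
  nlinarith

theorem taskE2a : TaskE2a := by
  intro m G _ hNE
  have hm : 1 ≤ m := by
    have h : 0 < Fintype.card (Ed G) := hNE
    obtain ⟨e⟩ := Fintype.card_pos_iff.1 h
    have := e.1.1.2
    omega
  have hm' : (1 : ℝ) ≤ m := by exact_mod_cast hm
  have hN : (1 : ℝ) ≤ (NE G : ℝ) := by exact_mod_cast hNE
  obtain ⟨N, hNdef⟩ : ∃ N : ℝ, N = (NE G : ℝ) := ⟨_, rfl⟩
  rw [← hNdef] at hN
  obtain ⟨κ, hκ⟩ : ∃ κ : ℝ, κ = 1 / (8 * N * m ^ 3) := ⟨_, rfl⟩
  obtain ⟨K, hK⟩ : ∃ K : ℝ, K = 8 * (m : ℝ) ^ 3 := ⟨_, rfl⟩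
  have hκ0 : 0 < κ := by rw [hκ]; positivity
  have hK0 : 0 < K := by rw [hK]; positivity
  refine ⟨K, κ, max (8 * m ^ 3 / κ) (4 / κ ^ 2 + 1), hK0, hκ0, ?_, ?_⟩
  · exact lt_max_of_lt_right (by positivity)
  intro α hα hE1 x hx D D' hD hD' hne hKD hfar hnear
  have hα1 : 8 * (m:ℝ) ^ 3 / κ ≤ α := (le_max_left _ _).trans hα
  have hα2 : 4 / κ ^ 2 < α := by
    have := (le_max_right _ _).trans hα
    linarith
  have hα0 : 0 < α := lt_trans (by positivity) hα2
  have hα1' : 8 * (m:ℝ) ^ 3 ≤ κ * α := by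
    rw [div_le_iff₀ hκ0] at hα1; linarith
  obtain ⟨⟨hx0, hx1, hxE⟩, hxf⟩ := hx
  have hxle : ∀ i, x i ≤ 1 := by
    intro i
    rw [← hx1]
    exact Finset.single_le_sum (fun j _ => hx0 j) (Finset.mem_univ i)
  have hxpos : ∀ i, x i ≠ 0 → 0 < x i := fun i hi => lt_of_le_of_ne (hx0 i) (Ne.symm hi)
  have hposD : ∀ i ∈ D, 0 < x i := fun i hi => hxpos i (hne i (Finset.mem_union_left _ hi))
  have hposD' : ∀ i ∈ D', 0 < x i := fun i hi => hxpos i (hne i (Finset.mem_union_right _ hi))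
  have hlt : ∀ i ∈ D, ∀ j ∈ D', x j < x i := by
    intro i hi j hj
    have h := hKD i hi j hj
    have h2 : Real.log (x j) < Real.log (x i) := by nlinarith
    exact (Real.log_lt_log_iff (hposD' j hj) (hposD i hi)).1 h2
  have hdisj : Disjoint D D' := by
    rw [Finset.disjoint_left]
    intro i hi hi'
    exact lt_irrefl _ (hlt i hi i hi')
  classical
  -- the quantities
  let q : Fin m → Fin m → ℝ := fun i j => if G.Adj i j then pp α (x i) (x j) else 0
  let z : Fin m → Fin m → ℤ := fun i j => if G.Adj i j then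
    (if (i ∈ D ∧ j ∈ D) ∨ (i ∈ D' ∧ j ∈ D') then (if i < j then 1 else 0)
      else (if x j < x i then 1 else 0)) else 0
  let e : Fin m → Fin m → ℝ := fun i j => q i j - z i j
  have hq : ∀ i, ∑ j, q i j = N * x i := by
    intro i; rw [hNdef]; exact hxf i
  have hqsum : ∀ i j, x i ≠ 0 → x j ≠ 0 → G.Adj i j → q i j + q j i = 1 := by
    intro i j hi hj hadj
    simp only [q, if_pos hadj, if_pos hadj.symm]
    exact pp_add (hxpos i hi) (hxpos j hj)
  have hq0 : ∀ i j, 0 ≤ q i j := by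
    intro i j
    simp only [q]
    split_ifs
    · exact pp_nonneg' (hx0 i) (hx0 j)
    · exact le_rfl
  have hqexp : ∀ i j, x i ≠ 0 → x j ≠ 0 →
      q i j ≤ Real.exp (α * Real.log (x i) - α * Real.log (x j)) := by
    intro i j hi hj
    simp only [q]
    split_ifs
    · exact pp_le_exp (hxpos i hi) (hxpos j hj)
    · positivity
  -- same cluster
  have hsame : ∀ S : Finset (Fin m), (S = D ∨ S = D') → ∑ i ∈ S, ∑ j ∈ S, e i j = 0 := by
    intro S hS
    apply sum_antisymm
    intro i hi j hj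
    have hi0 : x i ≠ 0 := by
      rcases hS with rfl | rfl
      · exact (hposD i hi).ne'
      · exact (hposD' i hi).ne'
    have hj0 : x j ≠ 0 := by
      rcases hS with rfl | rfl
      · exact (hposD j hj).ne'
      · exact (hposD' j hj).ne'
    by_cases hadj : G.Adj i j
    · have h1 := hqsum i j hi0 hj0 hadj
      have hc : (i ∈ D ∧ j ∈ D) ∨ (i ∈ D' ∧ j ∈ D') := by
        rcases hS with rfl | rfl
        · exact Or.inl ⟨hi, hj⟩
        · exact Or.inr ⟨hi, hj⟩
      have hc' : (j ∈ D ∧ i ∈ D) ∨ (j ∈ D' ∧ i ∈ D') := by tauto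
      have hz : z i j + z j i = 1 := by
        simp only [z, if_pos hadj, if_pos hadj.symm, if_pos hc, if_pos hc']
        rcases lt_or_gt_of_ne hadj.ne with h | h
        · rw [if_pos h, if_neg (not_lt.2 h.le)]; rfl
        · rw [if_neg (not_lt.2 h.le), if_pos h]; rfl
      have hz' : (z i j : ℝ) + (z j i : ℝ) = 1 := by exact_mod_cast hz
      simp only [e]
      linarith
    · have hadj' : ¬ G.Adj j i := fun h => hadj h.symm
      simp only [e, q, z, if_neg hadj, if_neg hadj']
      norm_num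
  -- between clusters
  have hDD' : ∀ i ∈ D, ∀ j ∈ D', e i j = - q j i := by
    intro i hi j hj
    by_cases hadj : G.Adj i j
    · have h1 := hqsum i j (hposD i hi).ne' (hposD' j hj).ne' hadj
      have hc : ¬ ((i ∈ D ∧ j ∈ D) ∨ (i ∈ D' ∧ j ∈ D')) := by
        rintro (⟨_, h⟩ | ⟨h, _⟩)
        · exact Finset.disjoint_left.1 hdisj h hj
        · exact Finset.disjoint_left.1 hdisj hi h
      have hz : z i j = 1 := by
        simp only [z, if_pos hadj, if_neg hc, if_pos (hlt i hi j hj)]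
      simp only [e, hz]
      push_cast
      linarith
    · have hadj' : ¬ G.Adj j i := fun h => hadj h.symm
      simp only [e, q, z, if_neg hadj, if_neg hadj']
      norm_num
  have hD'D : ∀ i ∈ D', ∀ j ∈ D, e i j = q i j := by
    intro i hi j hj
    have hc : ¬ ((i ∈ D ∧ j ∈ D) ∨ (i ∈ D' ∧ j ∈ D')) := by
      rintro (⟨h, _⟩ | ⟨_, h⟩)
      · exact Finset.disjoint_left.1 hdisj h hi
      · exact Finset.disjoint_left.1 hdisj hj h
    have hz : z i j = 0 := by
      simp only [z, if_neg hc, if_neg (not_lt.2 (hlt j hj i hi).le)]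
      split_ifs <;> rfl
    simp only [e, hz]
    push_cast
    ring
  -- far away
  have hfar' : ∀ i ∈ D ∪ D', ∀ j ∈ (D ∪ D')ᶜ, |e i j| ≤ Real.exp (-(κ * α)) := by
    intro i hi j hj
    rw [Finset.mem_compl] at hj
    have hi0 := hne i hi
    have hipos := hxpos i hi0
    have hc : ¬ ((i ∈ D ∧ j ∈ D) ∨ (i ∈ D' ∧ j ∈ D')) := by
      rintro (⟨_, h⟩ | ⟨_, h⟩)
      · exact hj (Finset.mem_union_left _ h)
      · exact hj (Finset.mem_union_right _ h)
    by_cases hadj : G.Adj i j
    · by_cases hj0 : x j = 0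
      · have h1 : e i j = 0 := by
          simp only [e, q, z, if_pos hadj, if_neg hc, hj0, if_pos hipos]
          rw [pp_zero hα0 hipos]; norm_num
        rw [h1, abs_zero]; positivity
      · have hjpos := hxpos j hj0
        have h1 := hfar i hi j hj0 hj
        by_cases hxlt : x j < x i
        · have hz : z i j = 1 := by
            simp only [z, if_pos hadj, if_neg hc, if_pos hxlt]
          have h2 := hqsum i j hi0 hj0 hadj
          have h3 : e i j = - q j i := by
            simp only [e, hz]; push_cast; linarith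
          rw [h3, abs_neg, abs_of_nonneg (hq0 j i)]
          refine (hqexp j i hj0 hi0).trans (Real.exp_le_exp.2 ?_)
          have h4 : Real.log (x j) < Real.log (x i) := Real.log_lt_log hjpos hxlt
          have h5 : 0 ≤ α * Real.log (x i) - α * Real.log (x j) := by nlinarith
          rw [abs_of_nonneg h5] at h1
          linarith
        · have hz : z i j = 0 := by
            simp only [z, if_pos hadj, if_neg hc, if_neg hxlt]
          have h3 : e i j = q i j := by
            simp only [e, hz]; push_cast; ring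
          rw [h3, abs_of_nonneg (hq0 i j)]
          refine (hqexp i j hi0 hj0).trans (Real.exp_le_exp.2 ?_)
          have h4 : Real.log (x i) ≤ Real.log (x j) :=
            Real.log_le_log hipos (not_lt.1 hxlt)
          have h5 : α * Real.log (x i) - α * Real.log (x j) ≤ 0 := by nlinarith
          rw [abs_of_nonpos h5] at h1
          linarith
    · have h1 : e i j = 0 := by
        simp only [e, q, z, if_neg hadj]
        norm_num
      rw [h1, abs_zero]; positivity
  -- the two identities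
  have hsum : ∀ S : Finset (Fin m), N * ∑ i ∈ S, x i =
      ((∑ i ∈ S, ∑ j, z i j : ℤ) : ℝ) + ∑ i ∈ S, ∑ j ∈ D, e i j + ∑ i ∈ S, ∑ j ∈ D', e i j
        + ∑ i ∈ S, ∑ j ∈ (D ∪ D')ᶜ, e i j := by
    intro S
    rw [Finset.mul_sum]
    push_cast
    rw [← Finset.sum_add_distrib, ← Finset.sum_add_distrib, ← Finset.sum_add_distrib]
    apply Finset.sum_congr rfl
    intro i _
    have h1 := split_sum D D' hdisj (fun j => e i j)
    have h2 : ∑ j, e i j = ∑ j, q i j - ∑ j, (z i j : ℝ) := by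
      simp only [e]; rw [Finset.sum_sub_distrib]
    rw [h2, hq i] at h1
    linarith
  obtain ⟨s, hsdef⟩ : ∃ s : ℝ, s = ∑ i ∈ D, ∑ j ∈ D', q j i := ⟨_, rfl⟩
  have hE1' : N * ∑ i ∈ D, x i = ((∑ i ∈ D, ∑ j, z i j : ℤ) : ℝ) - s
      + ∑ i ∈ D, ∑ j ∈ (D ∪ D')ᶜ, e i j := by
    rw [hsum D, hsame D (Or.inl rfl)]
    have : ∑ i ∈ D, ∑ j ∈ D', e i j = - s := by
      rw [hsdef, ← Finset.sum_neg_distrib]
      apply Finset.sum_congr rfl
      intro i hi
      rw [← Finset.sum_neg_distrib]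
      exact Finset.sum_congr rfl fun j hj => hDD' i hi j hj
    rw [this]; ring
  have hE2' : N * ∑ i ∈ D', x i = ((∑ i ∈ D', ∑ j, z i j : ℤ) : ℝ) + s
      + ∑ i ∈ D', ∑ j ∈ (D ∪ D')ᶜ, e i j := by
    rw [hsum D', hsame D' (Or.inr rfl)]
    have : ∑ i ∈ D', ∑ j ∈ D, e i j = s := by
      rw [hsdef, Finset.sum_comm]
      apply Finset.sum_congr rfl
      intro i hi
      exact Finset.sum_congr rfl fun j hj => hD'D j hj i hi
    rw [this]; ring
  have hs0 : 0 ≤ s := by
    rw [hsdef]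
    exact Finset.sum_nonneg fun i _ => Finset.sum_nonneg fun j _ => hq0 j i
  have hs1 : s ≤ m ^ 2 * Real.exp (-K) := by
    rw [hsdef]
    refine (le_abs_self _).trans (abs_dsum_le D D' (fun i j => q j i) _ (Real.exp_pos _).le ?_)
    intro i hi j hj
    rw [abs_of_nonneg (hq0 j i)]
    refine (hqexp j i (hposD' j hj).ne' (hposD i hi).ne').trans (Real.exp_le_exp.2 ?_)
    have := hKD i hi j hj
    linarith
  have hr := abs_dsum_le D (D ∪ D')ᶜ e _ (Real.exp_pos (-(κ * α))).le
    (fun i hi => hfar' i (Finset.mem_union_left _ hi))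
  have hr' := abs_dsum_le D' (D ∪ D')ᶜ e _ (Real.exp_pos (-(κ * α))).le
    (fun i hi => hfar' i (Finset.mem_union_right _ hi))
  -- the difference
  have hdiff : (D'.card : ℝ) * ∑ i ∈ D, x i - D.card * ∑ j ∈ D', x j =
      ∑ i ∈ D, ∑ j ∈ D', (x i - x j) := by
    simp only [Finset.sum_sub_distrib, Finset.sum_const, nsmul_eq_mul]
    rw [← Finset.mul_sum]
  have hup : (D'.card : ℝ) * ∑ i ∈ D, x i - D.card * ∑ j ∈ D', x j ≤
      D.card * D'.card * (m * κ) := by
    rw [hdiff]
    calc ∑ i ∈ D, ∑ j ∈ D', (x i - x j) ≤ ∑ i ∈ D, ∑ j ∈ D', (m * κ) := by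
          apply Finset.sum_le_sum; intro i hi
          apply Finset.sum_le_sum; intro j hj
          have h1 := log_upper (hposD i hi) (hposD' j hj)
          have h2 := hnear i (Finset.mem_union_left _ hi) j (Finset.mem_union_right _ hj)
          have h3 : α * (Real.log (x i) - Real.log (x j)) ≤ α * (m * κ) := by
            have := (le_abs_self _).trans h2
            linarith
          have h4 : Real.log (x i) - Real.log (x j) ≤ m * κ := le_of_mul_le_mul_left h3 hα0
          have h5 : Real.log (x j) < Real.log (x i) :=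
            Real.log_lt_log (hposD' j hj) (hlt i hi j hj)
          have h6 : x i * (Real.log (x i) - Real.log (x j)) ≤
              1 * (Real.log (x i) - Real.log (x j)) :=
            mul_le_mul_of_nonneg_right (hxle i) (by linarith)
          linarith
      _ = D.card * D'.card * (m * κ) := by simp; ring
  have hlo : (D.card : ℝ) * D'.card * (K / (8 * N * α)) ≤
      D'.card * ∑ i ∈ D, x i - D.card * ∑ j ∈ D', x j := by
    rw [hdiff]
    calc (D.card : ℝ) * D'.card * (K / (8 * N * α)) =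
        ∑ i ∈ D, ∑ j ∈ D', (K / (8 * N * α)) := by simp; ring
      _ ≤ ∑ i ∈ D, ∑ j ∈ D', (x i - x j) := by
          apply Finset.sum_le_sum; intro i hi
          apply Finset.sum_le_sum; intro j hj
          have h1 := log_upper (hposD' j hj) (hposD i hi)
          have h2 := hKD i hi j hj
          have h3 : K / α ≤ Real.log (x i) - Real.log (x j) := by
            rw [div_le_iff₀ hα0]; linarith
          have h4 : 1 / (8 * N) ≤ x j := by
            rcases hE1 x ⟨⟨hx0, hx1, hxE⟩, hxf⟩ j with h | h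
            · exact absurd h (hposD' j hj).ne'
            · rw [hNdef]; exact h
          have h5 : 1 / (8 * N) * (K / α) ≤ x j * (Real.log (x i) - Real.log (x j)) :=
            mul_le_mul h4 h3 (by positivity) (hposD' j hj).le
          have h6 : K / (8 * N * α) = 1 / (8 * N) * (K / α) := by
            field_simp
          rw [h6]
          linarith
  have hcD : D.card ≤ m := by simpa using Finset.card_le_univ D
  have hcD' : D'.card ≤ m := by simpa using Finset.card_le_univ D'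
  exact core N K κ α (Real.exp (-(κ * α))) (∑ i ∈ D, x i) (∑ i ∈ D', x i) s _ _ m D.card D'.card
    _ _ hN hm hD.card_pos hD'.card_pos hcD hcD' hκ hK hα0 hα1' hα2 rfl hE1' hE2' hs0 hs1
    hr hr' hup hlo

end Pool.Agent.H482.Urn
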